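import Pool.Agent.Helper13.R6.SheetA

/-! MP_798d7d, rank six, rows CP and N2 of sheet A (helper25). -/

set_option autoImplicit false

namespace Pool.Helper13.R6

namespace H25

theorem nv_le {d : Fin 4 → ℝ} {v : V4} {c : ℝ} : nv d v ≤ c ↔ ∀ i, d i * |(v i : ℝ)| ≤ c := by
  unfold nv
  rw [Finset.sup'_le_iff]
  exact ⟨fun h i => h i (Finset.mem_univ i), fun h i _ => h i⟩

theorem le_nv (d : Fin 4 → ℝ) (v : V4) (i : Fin 4) : d i * |(v i : ℝ)| ≤ nv d v :=
  nv_le.mp le_rfl i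

theorem nv_sub (d : Fin 4 → ℝ) (hd : ∀ i, 0 < d i) (v w : V4) :
    nv d (v - w) ≤ nv d v + nv d w := by
  rw [nv_le]
  intro i
  have h1 := le_nv d v i
  have h2 := le_nv d w i
  have h3 : |((v - w) i : ℝ)| ≤ |(v i : ℝ)| + |(w i : ℝ)| := by
    rw [Pi.sub_apply]
    push_cast
    exact abs_sub _ _
  calc d i * |((v - w) i : ℝ)| ≤ d i * (|(v i : ℝ)| + |(w i : ℝ)|) :=
        mul_le_mul_of_nonneg_left h3 (hd i).le
    _ = d i * |(v i : ℝ)| + d i * |(w i : ℝ)| := mul_add _ _ _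
    _ ≤ _ := add_le_add h1 h2

theorem cp1 (hK : ST_KL2) (hR : ST_RIN) (d : Fin 4 → ℝ) (x : A4) (s t : V4)
    (hd : ∀ i, 0 < d i) (hx : PrimA x) (hr : Red d x s t) (U : ℝ) (hU : 0 ≤ U)
    (S : Finset V4) (hS : ∀ v ∈ S, InP x v ∧ nv d v ≤ U) :
    (S.card : ℝ) ≤ (1 + 6 * U / nv d s) * (1 + 4 * U / nv d t) := by
  classical
  obtain ⟨hs0, hst, -, -, hc, -⟩ := hR d x s t hd hx hr
  have ht0 : 0 < nv d t := hs0.trans_le hst
  obtain ⟨A, hA⟩ : ∃ A : ℤ, A = ⌊3 * U / nv d s⌋ := ⟨_, rfl⟩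
  obtain ⟨B, hB⟩ : ∃ B : ℤ, B = ⌊2 * U / nv d t⌋ := ⟨_, rfl⟩
  have hA0 : 0 ≤ A := by
    rw [hA]
    exact Int.floor_nonneg.mpr (by positivity)
  have hB0 : 0 ≤ B := by
    rw [hB]
    exact Int.floor_nonneg.mpr (by positivity)
  have hAle : (A : ℝ) ≤ 3 * U / nv d s := by
    rw [hA]
    exact Int.floor_le _
  have hBle : (B : ℝ) ≤ 2 * U / nv d t := by
    rw [hB]
    exact Int.floor_le _
  have hsub : S ⊆ (Finset.Icc (-A) A ×ˢ Finset.Icc (-B) B).image
      (fun p : ℤ × ℤ => p.1 • s + p.2 • t) := by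
    intro v hv
    obtain ⟨hin, hn⟩ := hS v hv
    rw [hr.wd] at hin hx
    obtain ⟨a, b, rfl⟩ := hK s t v hx hin
    obtain ⟨h1, h2⟩ := hc a b
    have ha : |(a : ℝ)| ≤ 3 * U / nv d s := by
      rw [le_div_iff₀ hs0]
      linarith
    have hb : |(b : ℝ)| ≤ 2 * U / nv d t := by
      rw [le_div_iff₀ ht0]
      linarith
    have ha' : |a| ≤ A := by
      rw [hA, Int.le_floor]
      push_cast
      exact ha
    have hb' : |b| ≤ B := by
      rw [hB, Int.le_floor]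
      push_cast
      exact hb
    rw [Finset.mem_image]
    refine ⟨(a, b), ?_, rfl⟩
    rw [Finset.mem_product, Finset.mem_Icc, Finset.mem_Icc]
    exact ⟨abs_le.mp ha', abs_le.mp hb'⟩
  have hcard : S.card ≤ (2 * A + 1).toNat * (2 * B + 1).toNat := by
    refine (Finset.card_le_card hsub).trans (Finset.card_image_le.trans ?_)
    rw [Finset.card_product, Int.card_Icc, Int.card_Icc]
    have e1 : A + 1 - -A = 2 * A + 1 := by ring
    have e2 : B + 1 - -B = 2 * B + 1 := by ring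
    rw [e1, e2]
  have hcA : (((2 * A + 1).toNat : ℕ) : ℝ) = 2 * A + 1 := by
    have h : (((2 * A + 1).toNat : ℕ) : ℤ) = 2 * A + 1 := Int.toNat_of_nonneg (by linarith)
    have h' : ((((2 * A + 1).toNat : ℕ) : ℤ) : ℝ) = ((2 * A + 1 : ℤ) : ℝ) := by rw [h]
    push_cast at h'
    push_cast
    exact h'
  have hcB : (((2 * B + 1).toNat : ℕ) : ℝ) = 2 * B + 1 := by
    have h : (((2 * B + 1).toNat : ℕ) : ℤ) = 2 * B + 1 := Int.toNat_of_nonneg (by linarith)
    have h' : ((((2 * B + 1).toNat : ℕ) : ℤ) : ℝ) = ((2 * B + 1 : ℤ) : ℝ) := by rw [h]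
    push_cast at h'
    push_cast
    exact h'
  have hcR : (S.card : ℝ) ≤ (2 * A + 1) * (2 * B + 1) := by
    have h : (S.card : ℝ) ≤ (((2 * A + 1).toNat : ℕ) : ℝ) * (((2 * B + 1).toNat : ℕ) : ℝ) := by
      exact_mod_cast hcard
    rwa [hcA, hcB] at h
  have hA1 : (0 : ℝ) ≤ A := by exact_mod_cast hA0
  have hB1 : (0 : ℝ) ≤ B := by exact_mod_cast hB0
  have e1 : 6 * U / nv d s = 2 * (3 * U / nv d s) := by ring
  have e2 : 4 * U / nv d t = 2 * (2 * U / nv d t) := by ring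
  refine hcR.trans ?_
  rw [e1, e2]
  refine mul_le_mul ?_ ?_ (by linarith) ?_
  · linarith
  · linarith
  · have : 0 ≤ 3 * U / nv d s := by positivity
    linarith

theorem inP_wdg (a b : V4) : InP (wdg a b) a := by
  intro i j k
  unfold w3 wdg
  ring

end H25

/-- row CP -/
theorem st_CP (hK : ST_KL2) (hR : ST_RIN) : ST_CP := by
  intro d x s t hd hx hr U hU
  refine ⟨fun S hS => H25.cp1 hK hR d x s t hd hx hr U hU S hS, ?_⟩
  intro S h1 h2
  classical
  obtain ⟨hs0, hst, -⟩ := hR d x s t hd hx hr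
  have ht0 : 0 < nv d t := hs0.trans_le hst
  rcases S.eq_empty_or_nonempty with rfl | ⟨w, hw⟩
  · rw [Finset.card_empty]
    push_cast
    positivity
  · have h3 := H25.cp1 hK hR d x s t hd hx hr (2 * U) (by linarith) (S.image fun v => v - w) (by
      intro v hv
      rw [Finset.mem_image] at hv
      obtain ⟨u, hu, rfl⟩ := hv
      refine ⟨h1 u hu w hw, (H25.nv_sub d hd u w).trans ?_⟩
      have := h2 u hu
      have := h2 w hw
      linarith)
    rw [Finset.card_image_of_injective S (fun a b hab => sub_left_inj.mp hab)] at h3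
    have e1 : 6 * (2 * U) / nv d s = 12 * U / nv d s := by ring
    have e2 : 4 * (2 * U) / nv d t = 8 * U / nv d t := by ring
    rwa [e1, e2] at h3

/-- row N2 -/
theorem st_N2 (hX : ST_XI) (hN : ST_NS) (hR : ST_RIN) : ST_N2 := by
  obtain ⟨C, hC, hX⟩ := hX
  refine ⟨512 * C, by positivity, ?_⟩
  intro d X m ρ hd hp hX0 hm hρ S hS
  classical
  have hch : ∀ x : A4, ∃ s : V4, x ∈ S → ∃ t, Red d x s t ∧ ρ ≤ nv d s ∧ nv d s < 2 * ρ := by
    intro x
    by_cases hx : x ∈ S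
    · obtain ⟨-, s, t, h⟩ := hS x hx
      exact ⟨s, fun _ => ⟨t, h⟩⟩
    · exact ⟨0, fun h => absurd h hx⟩
  choose f hf using hch
  -- the image
  have him : ((S.image f).card : ℝ) ≤ 32 * (2 * ρ) ^ 3 * (2 * ρ + m) := by
    refine hN d m (2 * ρ) hd hp hm (by linarith) (S.image f) ?_
    intro v hv
    rw [Finset.mem_image] at hv
    obtain ⟨x, hx, rfl⟩ := hv
    obtain ⟨t, hr, -, h2⟩ := hf x hx
    obtain ⟨-, -, -, -, -, h6⟩ := hR d x (f x) t hd (hS x hx).1.prim hr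
    exact ⟨(h6 (hS x hx).1.nz).2.2.1, h2.le⟩
  -- the fibres
  have hfib : ∀ v ∈ S.image f, (((S.filter fun x => f x = v).card : ℕ) : ℝ) ≤
      C * X ^ 3 / ρ ^ 2 := by
    intro v hv
    rw [Finset.mem_image] at hv
    obtain ⟨x, hx, rfl⟩ := hv
    obtain ⟨t, hr, h1, -⟩ := hf x hx
    obtain ⟨hs0, -, -, -, -, h6⟩ := hR d x (f x) t hd (hS x hx).1.prim hr
    have hprim : PrimV (f x) := by
      intro k hk
      refine (hS x hx).1.prim k ?_
      intro i j
      rw [hr.wd]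
      unfold wdg
      exact dvd_sub ((hk i).mul_right _) ((hk j).mul_right _)
    have hbd : ∀ j, nv d (f x) * d j ≤ 2 * X := by
      intro j
      refine ((h6 (hS x hx).1.nz).2.1 j).trans ?_
      have := (hS x hx).1.hi
      linarith
    have h7 := hX d X (f x) hd hp hX0 hprim hbd (S.filter fun y => f y = f x) (by
      intro y hy
      rw [Finset.mem_filter] at hy
      obtain ⟨hy, hfy⟩ := hy
      obtain ⟨t', hr', -, -⟩ := hf y hy
      refine ⟨(hS y hy).1.plu, ?_, (hS y hy).1.hi⟩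
      have h8 : InP (wdg (f y) t') (f y) := H25.inP_wdg _ _
      rw [← hr'.wd, hfy] at h8
      exact h8)
    refine h7.trans ?_
    have h9 : ρ ^ 2 ≤ nv d (f x) ^ 2 := by
      exact pow_le_pow_left₀ hρ.le h1 2
    exact div_le_div_of_nonneg_left (by positivity) (by positivity) h9
  have hsum : (S.card : ℝ) = ∑ v ∈ S.image f, (((S.filter fun x => f x = v).card : ℕ) : ℝ) := by
    have h := Finset.card_eq_sum_card_image f S
    have h' : ((S.card : ℕ) : ℝ) = ((∑ v ∈ S.image f, (S.filter fun x => f x = v).card : ℕ) : ℝ) := by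
      exact_mod_cast h
    rw [h']
    push_cast
    rfl
  rw [hsum]
  have hm0 : 0 < m := (hd 0).trans_le (hm 0)
  calc ∑ v ∈ S.image f, (((S.filter fun x => f x = v).card : ℕ) : ℝ)
      ≤ ∑ v ∈ S.image f, C * X ^ 3 / ρ ^ 2 := Finset.sum_le_sum hfib
    _ = ((S.image f).card : ℝ) * (C * X ^ 3 / ρ ^ 2) := by
        rw [Finset.sum_const, nsmul_eq_mul]
    _ ≤ (32 * (2 * ρ) ^ 3 * (2 * ρ + m)) * (C * X ^ 3 / ρ ^ 2) :=
        mul_le_mul_of_nonneg_right him (by positivity)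
    _ = 256 * C * X ^ 3 * ρ * (2 * ρ + m) := by
        field_simp
        ring
    _ ≤ 512 * C * X ^ 3 * ρ * (ρ + m) := by
        have h1 : 256 * C * X ^ 3 * ρ * (2 * ρ + m) ≤ 256 * C * X ^ 3 * ρ * (2 * (ρ + m)) :=
          mul_le_mul_of_nonneg_left (by linarith) (by positivity)
        linarith

end Pool.Helper13.R6
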