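import Pool.Agent.Helper67.R6.Fam

/-! Rank six (MP_798d7d_nt), row INJ: the Plücker coordinates determine the member. -/

set_option autoImplicit false

namespace Pool.Helper67.R6

/-- the vector `(s₀, s⃗)` -/
def vS (w : Par) : Fin 4 → ℤ := ![w.1.1, w.2 0, w.2 1, w.2 2]

/-- the vector `(t₀, t⃗)` -/
def vT (w : Par) : Fin 4 → ℤ := ![w.1.2, w.2 3, w.2 4, w.2 5]

/-- the index pairs of the Plücker coordinates -/
def pI : Fin 6 → Fin 4 := ![0, 0, 0, 2, 1, 1]

/-- the index pairs of the Plücker coordinates -/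
def pJ : Fin 6 → Fin 4 := ![1, 2, 3, 3, 3, 2]

theorem pp_eq (w : Par) (l : Fin 6) :
    pp w l = vS w (pI l) * vT w (pJ l) - vS w (pJ l) * vT w (pI l) := by
  fin_cases l <;> simp [pp, vS, vT, pI, pJ]

theorem pl_eq {s t s' t' : Fin 4 → ℤ}
    (h : ∀ l, s (pI l) * t (pJ l) - s (pJ l) * t (pI l) =
      s' (pI l) * t' (pJ l) - s' (pJ l) * t' (pI l)) (i j : Fin 4) :
    s i * t j - s j * t i = s' i * t' j - s' j * t' i := by
  have h0 := h 0
  have h1 := h 1
  have h2 := h 2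
  have h3 := h 3
  have h4 := h 4
  have h5 := h 5
  simp only [pI, pJ, Matrix.cons_val] at h0 h1 h2 h3 h4 h5
  fin_cases i <;> fin_cases j <;> simp only [Fin.mk_zero, Fin.mk_one, Fin.reduceFinMk] <;>
    linarith

theorem id_S {s t s' t' : Fin 4 → ℤ}
    (h : ∀ i j, s i * t j - s j * t i = s' i * t' j - s' j * t' i) (i j k : Fin 4) :
    (s i * t j - s j * t i) * s' k =
      s k * (s' i * t j - s' j * t i) + t k * (s i * s' j - s j * s' i) := by
  linear_combination (h i j) * s' k - (h i k) * s' j + (h j k) * s' i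

theorem id_T {s t s' t' : Fin 4 → ℤ}
    (h : ∀ i j, s i * t j - s j * t i = s' i * t' j - s' j * t' i) (i j k : Fin 4) :
    (s i * t j - s j * t i) * t' k =
      s k * (t' i * t j - t' j * t i) + t k * (s i * t' j - s j * t' i) := by
  linear_combination (h i j) * t' k - (h i k) * t' j + (h j k) * t' i

/-- Bézout -/
theorem two_comb (p : Fin 6 → ℤ) (h4 : ¬ (4 : ℤ) ∣ p 0)
    (hq : ∀ q : ℕ, q.Prime → 2 < q → ∃ i, ¬ (q : ℤ) ∣ p i) :
    ∃ c : Fin 6 → ℤ, ∑ i, c i * p i = 2 := by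
  have hP : (Ideal.span (Set.range p)).IsPrincipal := IsPrincipalIdealRing.principal _
  obtain ⟨g, hg⟩ := hP
  have hdv : ∀ i, g ∣ p i := by
    intro i
    have h1 : p i ∈ Ideal.span (Set.range p) := Ideal.subset_span ⟨i, rfl⟩
    rw [hg] at h1
    exact Ideal.mem_span_singleton.1 h1
  have hg0 : g ≠ 0 := by
    rintro rfl
    have h1 := hdv 0
    rw [zero_dvd_iff] at h1
    exact h4 (by rw [h1]; exact dvd_zero _)
  have hpr : ∀ {d : ℕ}, d.Prime → d ∣ g.natAbs → d = 2 := by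
    intro d hd hdg
    by_contra hd2
    obtain ⟨i, hi⟩ := hq d hd (lt_of_le_of_ne hd.two_le (Ne.symm hd2))
    exact hi ((Int.natCast_dvd.2 hdg).trans (hdv i))
  have h2 := Nat.eq_prime_pow_of_unique_prime_dvd (Int.natAbs_ne_zero.2 hg0) hpr
  have h3 : g.natAbs.primeFactorsList.length ≤ 1 := by
    by_contra h5
    have h6 : 2 ≤ g.natAbs.primeFactorsList.length := by omega
    have h7 : 4 ∣ g.natAbs := by
      rw [h2]
      exact (pow_dvd_pow 2 h6)
    exact h4 (((Int.natCast_dvd (m := 4)).2 h7).trans (hdv 0))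
  have h8 : g.natAbs ∣ 2 := by
    rw [h2]
    exact (pow_dvd_pow 2 h3).trans (by norm_num)
  have h9 : g ∣ 2 := Int.natAbs_dvd_natAbs.1 h8
  have h10 : (2 : ℤ) ∈ Ideal.span (Set.range p) := by
    rw [hg]
    exact Ideal.mem_span_singleton.2 h9
  exact Ideal.mem_span_range_iff_exists_fun.1 h10

theorem comb_of {s t x : Fin 4 → ℤ} {c : Fin 6 → ℤ}
    (hc : ∑ l, c l * (s (pI l) * t (pJ l) - s (pJ l) * t (pI l)) = 2)
    (h : ∀ i j k, (s i * t j - s j * t i) * x k =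
      s k * (x i * t j - x j * t i) + t k * (s i * x j - s j * x i)) :
    ∃ α β : ℤ, ∀ k, 2 * x k = α * s k + β * t k := by
  refine ⟨∑ l, c l * (x (pI l) * t (pJ l) - x (pJ l) * t (pI l)),
    ∑ l, c l * (s (pI l) * x (pJ l) - s (pJ l) * x (pI l)), fun k => ?_⟩
  rw [← hc, Finset.sum_mul, Finset.sum_mul, Finset.sum_mul, ← Finset.sum_add_distrib]
  refine Finset.sum_congr rfl fun l _ => ?_
  linear_combination c l * h (pI l) (pJ l) k

/-- the sizes -/
theorem size_lem {N p q r s x y α β : ℤ} (hN : 0 < N) (hp : 999 * N ≤ p ∧ p ≤ 1001 * N)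
    (hq : |q| ≤ N) (hr : |r| ≤ N) (hs : 999 * N ≤ s)
    (hx : 999 * N ≤ x ∧ x ≤ 1001 * N) (hy : |y| ≤ N) (h1 : 2 * x = α * p + β * q)
    (h2 : 2 * y = α * r + β * s) : α = 2 ∧ β = 0 := by
  have hb : 999 * |β| ≤ 2 + |α| := by
    have e1 : |β| * s ≤ 2 * N + |α| * N := by
      have e2 : |β * s| = |2 * y - α * r| := by rw [h2]; congr 1; ring
      have e3 : |β * s| = |β| * s := by
        rw [abs_mul, abs_of_pos (show 0 < s by linarith)]
      have e4 : |2 * y - α * r| ≤ |2 * y| + |α * r| := abs_sub _ _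
      rw [abs_mul, abs_mul] at e4
      have e5 : |α| * |r| ≤ |α| * N := mul_le_mul_of_nonneg_left hr (abs_nonneg _)
      have e6 : |(2 : ℤ)| = 2 := by norm_num
      rw [e6] at e4
      rw [← e3, e2]
      linarith
    have e7 : |β| * (999 * N) ≤ |β| * s := mul_le_mul_of_nonneg_left hs (abs_nonneg _)
    have e8 : (999 * |β|) * N ≤ (2 + |α|) * N := by linarith
    exact le_of_mul_le_mul_right e8 hN
  have ha : 999 * |α| ≤ 2002 + |β| := by
    have e1 : |α| * p ≤ 2002 * N + |β| * N := by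
      have e2 : |α * p| = |2 * x - β * q| := by rw [h1]; congr 1; ring
      have e3 : |α * p| = |α| * p := by
        rw [abs_mul, abs_of_pos (show 0 < p by linarith [hp.1])]
      have e4 : |2 * x - β * q| ≤ |2 * x| + |β * q| := abs_sub _ _
      rw [abs_mul, abs_mul] at e4
      have e5 : |β| * |q| ≤ |β| * N := mul_le_mul_of_nonneg_left hq (abs_nonneg _)
      have e6 : |(2 : ℤ)| = 2 := by norm_num
      have e9 : |x| = x := abs_of_pos (by linarith [hx.1])
      rw [e6, e9] at e4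
      rw [← e3, e2]
      linarith [hx.2]
    have e7 : |α| * (999 * N) ≤ |α| * p := mul_le_mul_of_nonneg_left hp.1 (abs_nonneg _)
    have e8 : (999 * |α|) * N ≤ (2002 + |β|) * N := by linarith
    exact le_of_mul_le_mul_right e8 hN
  have hb0 : |β| = 0 := by
    have := abs_nonneg β
    omega
  have hβ : β = 0 := abs_eq_zero.1 hb0
  subst hβ
  refine ⟨?_, rfl⟩
  rw [zero_mul, add_zero] at h1
  have ha2 : |α| ≤ 2 := by
    rw [abs_zero] at ha
    omega
  have h3 := abs_le.1 ha2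
  obtain ⟨h4, h5⟩ := h3
  have h6 : 0 < α := by
    by_contra h7
    have h8 : α * p ≤ 0 := mul_nonpos_of_nonpos_of_nonneg (not_lt.1 h7) (by linarith [hp.1])
    linarith [hx.1]
  interval_cases α
  · exfalso
    linarith [hx.1, hp.2]
  · rfl

theorem MM_big : (14400 : ℤ) ≤ MM := by
  have h1 : (1 : ℤ) ≤ (Nat.factorial QQ : ℤ) := by
    exact_mod_cast Nat.one_le_iff_ne_zero.2 (Nat.factorial_ne_zero QQ)
  unfold MM
  linarith

theorem MM_four : (4 : ℤ) ∣ MM := by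
  unfold MM
  exact Dvd.dvd.mul_right (by norm_num) _

/-- the coordinates of a member -/
theorem box_coord {m : ℕ} (hm : 1 ≤ m) {T : (ℕ × ℕ) × (Fin 6 → ℕ)} (hT : T ∈ Box m) :
    (999 * (MM * m) ≤ vS (ww m T) 1 ∧ vS (ww m T) 1 ≤ 1001 * (MM * m)) ∧
    |vT (ww m T) 1| ≤ MM * m ∧ |vS (ww m T) 2| ≤ MM * m ∧
    (999 * (MM * m) ≤ vT (ww m T) 2 ∧ vT (ww m T) 2 ≤ 1001 * (MM * m)) := by
  have h1 : ∀ i, T.2 i < m := by
    intro i
    have h2 := (Finset.mem_product.1 hT).2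
    exact Finset.mem_range.1 (Fintype.mem_piFinset.1 h2 i)
  have hM := MM_big
  have hm' : (1 : ℤ) ≤ (m : ℤ) := by exact_mod_cast hm
  have hN : MM ≤ MM * m := le_mul_of_one_le_right (by linarith) hm'
  have h3 : ∀ i, 0 ≤ MM * (T.2 i : ℤ) ∧ MM * (T.2 i : ℤ) ≤ MM * m - MM := by
    intro i
    have h4 : (T.2 i : ℤ) ≤ (m : ℤ) - 1 := by
      have := h1 i
      omega
    refine ⟨mul_nonneg (by linarith) (Int.natCast_nonneg _), ?_⟩
    have h5 : MM * (T.2 i : ℤ) ≤ MM * ((m : ℤ) - 1) := mul_le_mul_of_nonneg_left h4 (by linarith)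
    linarith
  have e1 : vS (ww m T) 1 = -3 + 1000 * (MM * m) + MM * (T.2 0 : ℤ) := by
    simp only [vS, ww, zb, sh, Matrix.cons_val]
    ring
  have e2 : vT (ww m T) 1 = -3 + MM * (T.2 3 : ℤ) := by
    simp only [vT, ww, zb, sh, Matrix.cons_val]
    ring
  have e3 : vS (ww m T) 2 = -1 + MM * (T.2 1 : ℤ) := by
    simp only [vS, ww, zb, sh, Matrix.cons_val]
    ring
  have e4 : vT (ww m T) 2 = -3 + 1000 * (MM * m) + MM * (T.2 4 : ℤ) := by
    simp only [vT, ww, zb, sh, Matrix.cons_val]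
    ring
  rw [e1, e2, e3, e4]
  have a0 := h3 0
  have a1 := h3 1
  have a3 := h3 3
  have a4 := h3 4
  refine ⟨⟨by linarith [a0.1], by linarith [a0.2]⟩, abs_le.2 ⟨by linarith [a3.1], by linarith [a3.2]⟩,
    abs_le.2 ⟨by linarith [a1.1], by linarith [a1.2]⟩, ⟨by linarith [a4.1], by linarith [a4.2]⟩⟩

theorem pp_zero {m : ℕ} (T : (ℕ × ℕ) × (Fin 6 → ℕ)) : ¬ (4 : ℤ) ∣ pp (ww m T) 0 := by
  obtain ⟨k, hk⟩ := MM_four
  intro ⟨l, hl⟩
  have e : pp (ww m T) 0 = (1 + MM * (T.1.1 : ℤ)) * (-3 + MM * (T.2 3 : ℤ)) -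
      (-3 + MM * (1000 * (m : ℤ) + (T.2 0 : ℤ))) * (-1 + MM * (T.1.2 : ℤ)) := by
    simp only [pp, ww, zb, sh, Matrix.cons_val]
    ring
  rw [e, hk] at hl
  have h2 : (-6 : ℤ) = 4 * (l - (k * (T.2 3 : ℤ) - 3 * k * (T.1.1 : ℤ) +
      4 * k * (T.1.1 : ℤ) * k * (T.2 3 : ℤ) + 3 * k * (T.1.2 : ℤ) +
      k * (1000 * (m : ℤ) + (T.2 0 : ℤ)) -
      4 * k * (1000 * (m : ℤ) + (T.2 0 : ℤ)) * k * (T.1.2 : ℤ))) := by
    linear_combination hl
  omega

theorem st_INJ : ST_INJ := by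
  intro m hm T hT T' hT' hpp hq
  have h1 : ∀ l, vS (ww m T) (pI l) * vT (ww m T) (pJ l) - vS (ww m T) (pJ l) * vT (ww m T) (pI l) =
      vS (ww m T') (pI l) * vT (ww m T') (pJ l) - vS (ww m T') (pJ l) * vT (ww m T') (pI l) := by
    intro l
    rw [← pp_eq, ← pp_eq, hpp]
  have h2 := pl_eq h1
  obtain ⟨c, hc⟩ := two_comb (pp (ww m T)) (pp_zero T) hq
  have hc' : ∑ l, c l * (vS (ww m T) (pI l) * vT (ww m T) (pJ l) -
      vS (ww m T) (pJ l) * vT (ww m T) (pI l)) = 2 := by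
    rw [← hc]
    exact Finset.sum_congr rfl fun l _ => by rw [pp_eq]
  obtain ⟨α, β, hS⟩ := comb_of hc' (id_S h2)
  obtain ⟨γ, δ, hT2⟩ := comb_of hc' (id_T h2)
  obtain ⟨b1, b2, b3, b4⟩ := box_coord hm hT
  obtain ⟨d1, d2, d3, d4⟩ := box_coord hm hT'
  have hN : 0 < MM * (m : ℤ) := by
    have := MM_big
    have hm' : (1 : ℤ) ≤ (m : ℤ) := by exact_mod_cast hm
    exact mul_pos (by linarith) (by linarith)
  obtain ⟨rfl, rfl⟩ := size_lem hN b1 b2 b3 b4.1 d1 d3 (hS 1) (hS 2)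
  obtain ⟨rfl, rfl⟩ := size_lem (α := δ) (β := γ) hN b4 b3 b2 b1.1 d4 d2
    (by rw [hT2 2]; ring) (by rw [hT2 1]; ring)
  have hSe : ∀ k, vS (ww m T') k = vS (ww m T) k := fun k => by
    have := hS k
    linarith
  have hTe : ∀ k, vT (ww m T') k = vT (ww m T) k := fun k => by
    have := hT2 k
    linarith
  have hM0 : MM ≠ 0 := by
    have := MM_big
    intro h
    rw [h] at this
    norm_num at this
  have key : ∀ {a b : ℕ} {c : ℤ}, c + MM * (a : ℤ) = c + MM * (b : ℤ) → b = a := by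
    intro a b c h
    have h3 : MM * (a : ℤ) = MM * (b : ℤ) := add_left_cancel h
    exact_mod_cast (mul_left_cancel₀ hM0 h3).symm
  have key2 : ∀ {a b : ℕ} {c d : ℤ}, c + MM * (d + (a : ℤ)) = c + MM * (d + (b : ℤ)) → b = a := by
    intro a b c d h
    refine key (c := c + MM * d) ?_
    linarith
  have x0 := hSe 0
  have x1 := hSe 1
  have x2 := hSe 2
  have x3 := hSe 3
  have y0 := hTe 0
  have y1 := hTe 1
  have y2 := hTe 2
  have y3 := hTe 3
  simp only [vS, vT, ww, Matrix.cons_val] at x0 x1 x2 x3 y0 y1 y2 y3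
  refine Prod.ext (Prod.ext (key x0) (key y0)) (funext fun i => ?_)
  fin_cases i
  · exact key2 x1
  · exact key2 x2
  · exact key2 x3
  · exact key2 y1
  · exact key2 y2
  · exact key2 y3

end Pool.Helper67.R6
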