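import Pool.Agent.Helper67.R6.Fam

/-! Rank six (MP_798d7d_nt), row MULT: the twelve abscissae determine the member. -/

set_option autoImplicit false

namespace Pool.Helper67.R6

theorem pos_sq {a b c a' b' c' : ℤ} (ha : 0 < a) (hb : 0 < b) (hc : 0 < c) (ha' : 0 < a')
    (hab : a * b = a' * b') (hbc : b * c = b' * c') (hac : a * c = a' * c') :
    a = a' ∧ b = b' ∧ c = c' := by
  have h1 : a ^ 2 * (b * c) = a' ^ 2 * (b * c) := by
    rw [show a ^ 2 * (b * c) = (a * b) * (a * c) by ring, hab, hac, hbc]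
    ring
  have h2 : a ^ 2 = a' ^ 2 := mul_right_cancel₀ (mul_pos hb hc).ne' h1
  have h3 : a = a' := (pow_left_inj₀ ha.le ha'.le two_ne_zero).1 h2
  subst h3
  exact ⟨rfl, mul_left_cancel₀ ha.ne' hab, mul_left_cancel₀ ha.ne' hac⟩

theorem st_MULT (hINJ : ST_INJ) (hREL : ST_REL) (hDIV : ST_DIV) (hBND : ST_BND) : ST_MULT := by
  obtain ⟨C, _, hB⟩ := hBND
  intro m hm T hT T' hT' hq hx
  obtain ⟨hc, hy, _⟩ := hB m hm T hT
  obtain ⟨hc', hy', _⟩ := hB m hm T' hT'
  have key : ∀ i j : Fin 6, SP i j → YY (ww m T) i * YY (ww m T) j =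
      YY (ww m T') i * YY (ww m T') j := by
    intro i j hij
    have e1 := hDIV _ hc i j hij 1 (Or.inl rfl)
    have e2 := hDIV _ hc i j hij (-1) (Or.inr rfl)
    have e3 := hDIV _ hc' i j hij 1 (Or.inl rfl)
    have e4 := hDIV _ hc' i j hij (-1) (Or.inr rfl)
    rw [← hx i j 1 hij (Or.inl rfl)] at e3
    rw [← hx i j (-1) hij (Or.inr rfl)] at e4
    have f1 := e1.symm.trans e3
    have f2 := e2.symm.trans e4
    simp only [xn] at f1 f2
    linarith
  have s01 : SP 0 1 := ⟨by decide, by decide⟩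
  have s12 : SP 1 2 := ⟨by decide, by decide⟩
  have s02 : SP 0 2 := ⟨by decide, by decide⟩
  have s34 : SP 3 4 := ⟨by decide, by decide⟩
  have s45 : SP 4 5 := ⟨by decide, by decide⟩
  have s35 : SP 3 5 := ⟨by decide, by decide⟩
  obtain ⟨a0, a1, a2⟩ := pos_sq (hy 0).1 (hy 1).1 (hy 2).1 (hy' 0).1 (key 0 1 s01) (key 1 2 s12)
    (key 0 2 s02)
  obtain ⟨a3, a4, a5⟩ := pos_sq (hy 3).1 (hy 4).1 (hy 5).1 (hy' 3).1 (key 3 4 s34) (key 4 5 s45)
    (key 3 5 s35)
  obtain ⟨⟨r0, r1, r2, r3, r4, r5⟩, _⟩ := hREL _ hc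
  obtain ⟨⟨t0, t1, t2, t3, t4, t5⟩, _⟩ := hREL _ hc'
  have hU0 : U (ww m T) 0 = U (ww m T') 0 := by linarith
  have hU1 : U (ww m T) 1 = U (ww m T') 1 := by linarith
  have hU2 : U (ww m T) 2 = U (ww m T') 2 := by linarith
  have hV0 : V (ww m T).2 0 = V (ww m T').2 0 := by linarith
  have hV1 : V (ww m T).2 1 = V (ww m T').2 1 := by linarith
  have hV2 : V (ww m T).2 2 = V (ww m T').2 2 := by linarith
  simp only [U, V, Matrix.cons_val] at hU0 hU1 hU2 hV0 hV1 hV2
  refine hINJ m hm T hT T' hT' (funext fun i => ?_) hq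
  fin_cases i
  · change pp (ww m T) 0 = pp (ww m T') 0
    simp only [pp, Matrix.cons_val]
    linarith
  · change pp (ww m T) 1 = pp (ww m T') 1
    simp only [pp, Matrix.cons_val]
    linarith
  · change pp (ww m T) 2 = pp (ww m T') 2
    simp only [pp, Matrix.cons_val]
    linarith
  · change pp (ww m T) 3 = pp (ww m T') 3
    simp only [pp, Matrix.cons_val]
    linarith
  · change pp (ww m T) 4 = pp (ww m T') 4
    simp only [pp, Matrix.cons_val]
    linarith
  · change pp (ww m T) 5 = pp (ww m T') 5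
    simp only [pp, Matrix.cons_val]
    linarith

end Pool.Helper67.R6
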