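import Pool.Agent.Helper67.R6.Fam

/-! Rank six (MP_798d7d_nt), row SVT: pairs of roots. -/

set_option autoImplicit false

namespace Pool.Helper67.R6

namespace SVTaux

open Finset

/-- a predicate which leaves at most `h` values for one coordinate -/
theorem cnt_one (m h : ℕ) (k : Fin 6) (P : (Fin 6 → ℕ) → Prop) [DecidablePred P]
    (hP : ∀ t : Fin 6 → ℕ, ((range m).filter fun v => P (Function.update t k v)).card ≤ h) :
    ((Fintype.piFinset fun _ : Fin 6 => range m).filter P).card ≤ h * m ^ 5 := by
  classical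
  have h1 : ((Fintype.piFinset fun _ : {i : Fin 6 // i ≠ k} => range m)).card = m ^ 5 := by
    rw [Fintype.card_piFinset, prod_const, card_range]
    have h0 : (univ : Finset {i : Fin 6 // i ≠ k}).card = 5 := by
      rw [card_univ, Fintype.card_subtype_compl, Fintype.card_fin, Fintype.card_subtype_eq]
    rw [h0]
  rw [← h1]
  refine card_le_mul_card_image_of_maps_to (f := fun t (i : {i : Fin 6 // i ≠ k}) => t i) ?_ h ?_
  · intro t ht
    rw [Fintype.mem_piFinset]
    intro i
    exact Fintype.mem_piFinset.1 (mem_filter.1 ht).1 i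
  · intro b _
    refine le_trans ?_ (hP (fun i => if hi : i ≠ k then b ⟨i, hi⟩ else 0))
    have h2 : ∀ t : Fin 6 → ℕ, (fun i : {i : Fin 6 // i ≠ k} => t i) = b →
        Function.update (fun i => if hi : i ≠ k then b ⟨i, hi⟩ else 0) k (t k) = t := by
      intro t ht
      funext i
      by_cases hi : i = k
      · subst hi
        rw [Function.update_self]
      · rw [Function.update_of_ne hi, dif_pos hi, ← ht]
    refine card_le_card_of_injOn (fun t => t k) ?_ ?_
    · intro t ht
      have ht' := mem_filter.1 (mem_coe.1 ht)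
      have ht2 := mem_filter.1 ht'.1
      refine mem_coe.2 (mem_filter.2 ⟨Fintype.mem_piFinset.1 ht2.1 k, ?_⟩)
      change P (Function.update (fun i => if hi : i ≠ k then b ⟨i, hi⟩ else 0) k (t k))
      rw [h2 t ht'.2]
      exact ht2.2
    · intro t ht t' ht' he
      have e1 := h2 t (mem_filter.1 (mem_coe.1 ht)).2
      have e2 := h2 t' (mem_filter.1 (mem_coe.1 ht')).2
      rw [← e1, ← e2]
      have : t k = t' k := he
      rw [this]

/-- index of `s` -/
def i0 : Fin 3 → Fin 6 := ![0, 1, 2]

/-- index of `t` -/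
def i3 : Fin 3 → Fin 6 := ![3, 4, 5]

theorem ne1 : ∀ i j : Fin 3, i ≠ j → i0 i ≠ i0 j := by decide
theorem ne2 : ∀ i j : Fin 3, i3 i ≠ i0 j := by decide
theorem ne3 : ∀ i j : Fin 3, i ≠ j → i3 i ≠ i3 j := by decide

/-- two coordinates with at most `h` values -/
theorem cnt_two (m h : ℕ) (i : Fin 3) (A B : Finset ℕ) (hA : A.card ≤ h) (hB : B.card ≤ h) :
    ((Fintype.piFinset fun _ : Fin 6 => range m).filter
      (fun t => t (i0 i) ∈ A ∧ t (i3 i) ∈ B)).card ≤ m ^ 4 * h ^ 2 := by
  classical
  have h1 : ((Fintype.piFinset fun _ : Fin 6 => range m).filter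
      (fun t => t (i0 i) ∈ A ∧ t (i3 i) ∈ B)) ⊆
      Fintype.piFinset (fun s => if s = i0 i then A else if s = i3 i then B else range m) := by
    intro t ht
    rw [mem_filter, Fintype.mem_piFinset] at ht
    rw [Fintype.mem_piFinset]
    intro s
    by_cases h2 : s = i0 i
    · rw [if_pos h2, h2]
      exact ht.2.1
    · rw [if_neg h2]
      by_cases h3 : s = i3 i
      · rw [if_pos h3, h3]
        exact ht.2.2
      · rw [if_neg h3]
        exact ht.1 s
  refine (card_le_card h1).trans ?_
  rw [Fintype.card_piFinset]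
  have h4 : ∏ s : Fin 6, (if s = i0 i then A else if s = i3 i then B else range m).card ≤
      ∏ s : Fin 6, (if s = i0 i then h else if s = i3 i then h else m) := by
    refine prod_le_prod' fun s _ => ?_
    split_ifs
    · exact hA
    · exact hB
    · rw [card_range]
  refine h4.trans (le_of_eq ?_)
  have h5 : ∀ i : Fin 3, ∏ s : Fin 6, (if s = i0 i then h else if s = i3 i then h else m) =
      m ^ 4 * h ^ 2 := by
    intro i
    fin_cases i
    · change ∏ s : Fin 6, (if s = 0 then h else if s = 3 then h else m) = m ^ 4 * h ^ 2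
      simp +decide only [Fin.prod_univ_six, if_true, if_false]
      ring
    · change ∏ s : Fin 6, (if s = 1 then h else if s = 4 then h else m) = m ^ 4 * h ^ 2
      simp +decide only [Fin.prod_univ_six, if_true, if_false]
      ring
    · change ∏ s : Fin 6, (if s = 2 then h else if s = 5 then h else m) = m ^ 4 * h ^ 2
      simp +decide only [Fin.prod_univ_six, if_true, if_false]
      ring
  exact h5 i

/-- a line in the `(X, Y)` plane -/
theorem cnt_line {F : Type} [Field F] (m h : ℕ) (X Y : ℕ → F)
    (hX : ∀ r, ∀ _ : DecidablePred (fun t => X t = r), ((range m).filter (fun t => X t = r)).card ≤ h)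
    (hY : ∀ r, ∀ _ : DecidablePred (fun t => Y t = r), ((range m).filter (fun t => Y t = r)).card ≤ h)
    (a b c : F) (hab : a ≠ 0 ∨ b ≠ 0) (P : ℕ × ℕ → Prop) [DecidablePred P]
    (hP : ∀ p, P p → X p.1 * a - b * Y p.2 = c) :
    (((range m) ×ˢ (range m)).filter P).card ≤ h * m := by
  classical
  rcases hab with ha | hb
  · have h1 : ((((range m) ×ˢ (range m)).filter P)).card ≤ h * (range m).card := by
      refine card_le_mul_card_image_of_maps_to (f := Prod.snd) ?_ h ?_
      · intro p hp
        exact (mem_product.1 (mem_filter.1 hp).1).2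
      · intro y _
        refine le_trans ?_ (hX ((c + b * Y y) / a) inferInstance)
        refine card_le_card_of_injOn Prod.fst ?_ ?_
        · intro p hp
          have hp1 := mem_filter.1 (mem_coe.1 hp)
          have hp2 := mem_filter.1 hp1.1
          refine mem_coe.2 (mem_filter.2 ⟨(mem_product.1 hp2.1).1, ?_⟩)
          have h3 := hP p hp2.2
          have h4 : p.2 = y := hp1.2
          rw [h4] at h3
          change X p.1 = (c + b * Y y) / a
          rw [eq_div_iff ha]
          linear_combination h3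
        · intro p hp p' hp' he
          have h4 : p.2 = y := (mem_filter.1 (mem_coe.1 hp)).2
          have h5 : p'.2 = y := (mem_filter.1 (mem_coe.1 hp')).2
          exact Prod.ext he (h4.trans h5.symm)
    rwa [card_range] at h1
  · have h1 : ((((range m) ×ˢ (range m)).filter P)).card ≤ h * (range m).card := by
      refine card_le_mul_card_image_of_maps_to (f := Prod.fst) ?_ h ?_
      · intro p hp
        exact (mem_product.1 (mem_filter.1 hp).1).1
      · intro y _
        refine le_trans ?_ (hY ((X y * a - c) / b) inferInstance)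
        refine card_le_card_of_injOn Prod.snd ?_ ?_
        · intro p hp
          have hp1 := mem_filter.1 (mem_coe.1 hp)
          have hp2 := mem_filter.1 hp1.1
          refine mem_coe.2 (mem_filter.2 ⟨(mem_product.1 hp2.1).2, ?_⟩)
          have h3 := hP p hp2.2
          have h4 : p.1 = y := hp1.2
          rw [h4] at h3
          change Y p.2 = (X y * a - c) / b
          rw [eq_div_iff hb]
          linear_combination -h3
        · intro p hp p' hp' he
          have h4 : p.1 = y := (mem_filter.1 (mem_coe.1 hp)).2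
          have h5 : p'.1 = y := (mem_filter.1 (mem_coe.1 hp')).2
          exact Prod.ext (h4.trans h5.symm) he
    rwa [card_range] at h1

/-- the factors of `U` -/
def cU (F : Type) [Field F] : Fin 3 → F := ![1, 1, 4]

theorem U_eq {F : Type} [Field F] (w : (F × F) × (Fin 6 → F)) (i : Fin 3) :
    U w i = cU F i * (w.1.1 * w.2 (i3 i) - w.2 (i0 i) * w.1.2) := by
  fin_cases i
  · change U w 0 = cU F 0 * (w.1.1 * w.2 (i3 0) - w.2 (i0 0) * w.1.2)
    simp only [U, cU, i3, i0, Matrix.cons_val]
    ring
  · change U w 1 = cU F 1 * (w.1.1 * w.2 (i3 1) - w.2 (i0 1) * w.1.2)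
    simp only [U, cU, i3, i0, Matrix.cons_val]
    ring
  · change U w 2 = cU F 2 * (w.1.1 * w.2 (i3 2) - w.2 (i0 2) * w.1.2)
    simp only [U, cU, i3, i0, Matrix.cons_val]

theorem cU_ne {F : Type} [Field F] (h30 : (30 : F) ≠ 0) (i : Fin 3) : cU F i ≠ 0 := by
  have h2 : (2 : F) ≠ 0 := by
    intro h
    apply h30
    linear_combination 15 * h
  fin_cases i
  · exact one_ne_zero
  · exact one_ne_zero
  · change (4 : F) ≠ 0
    rw [show (4 : F) = 2 * 2 by norm_num]
    exact mul_ne_zero h2 h2

/-- two lines in the `(X, Y)` plane -/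
theorem cnt_pt {F : Type} [Field F] (m h : ℕ) (X Y : ℕ → F)
    (hX : ∀ r, ∀ _ : DecidablePred (fun t => X t = r), ((range m).filter (fun t => X t = r)).card ≤ h)
    (hY : ∀ r, ∀ _ : DecidablePred (fun t => Y t = r), ((range m).filter (fun t => Y t = r)).card ≤ h)
    (a b c a' b' c' : F) (hab : b * a' - b' * a ≠ 0) (P : ℕ × ℕ → Prop) [DecidablePred P]
    (hP : ∀ p, P p → X p.1 * a - b * Y p.2 = c ∧ X p.1 * a' - b' * Y p.2 = c') :
    (((range m) ×ˢ (range m)).filter P).card ≤ h * h := by
  classical
  rcases (((range m) ×ˢ (range m)).filter P).eq_empty_or_nonempty with h0 | ⟨q, hq⟩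
  · rw [h0, card_empty]
    exact Nat.zero_le _
  have hq2 := hP q (mem_filter.1 hq).2
  have h1 : (((range m) ×ˢ (range m)).filter P) ⊆
      ((range m).filter (fun t => X t = X q.1)) ×ˢ ((range m).filter (fun t => Y t = Y q.2)) := by
    intro p hp
    have hp1 := mem_filter.1 hp
    have hp2 := hP p hp1.2
    have hp3 := mem_product.1 hp1.1
    rw [mem_product, mem_filter, mem_filter]
    refine ⟨⟨hp3.1, ?_⟩, ⟨hp3.2, ?_⟩⟩
    · have e : (X p.1 - X q.1) * (b * a' - b' * a) = 0 := by
        linear_combination b * (hp2.2 - hq2.2) - b' * (hp2.1 - hq2.1)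
      exact sub_eq_zero.1 ((mul_eq_zero.1 e).resolve_right hab)
    · have e : (Y p.2 - Y q.2) * (b * a' - b' * a) = 0 := by
        linear_combination a * (hp2.2 - hq2.2) - a' * (hp2.1 - hq2.1)
      exact sub_eq_zero.1 ((mul_eq_zero.1 e).resolve_right hab)
  refine (card_le_card h1).trans ?_
  rw [card_product]
  exact Nat.mul_le_mul (hX _ _) (hY _ _)

end SVTaux

open SVTaux Finset in
theorem st_SVT : ST_SVT := by
  classical
  intro F _ h30 m h X Y x _ hX' hY' hx' i j ε δ hij hε hδ
  have hX : ∀ r, ∀ _ : DecidablePred (fun t => X t = r),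
      ((range m).filter (fun t => X t = r)).card ≤ h := by
    intro r I
    rw [Subsingleton.elim I (fun a => Classical.propDecidable _)]
    exact hX' r
  have hY : ∀ r, ∀ _ : DecidablePred (fun t => Y t = r),
      ((range m).filter (fun t => Y t = r)).card ≤ h := by
    intro r I
    rw [Subsingleton.elim I (fun a => Classical.propDecidable _)]
    exact hY' r
  have hx : ∀ k r, ∀ _ : DecidablePred (fun t => x k t = r),
      ((range m).filter (fun t => x k t = r)).card ≤ h := by
    intro k r I
    rw [Subsingleton.elim I (fun a => Classical.propDecidable _)]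
    exact hx' k r
  set z : (Fin 6 → ℕ) → Fin 6 → F := fun t k => x k (t k) with hz
  set Z : Finset (Fin 6 → ℕ) := Fintype.piFinset fun _ : Fin 6 => range m with hZ
  set C : (ℕ × ℕ) × (Fin 6 → ℕ) → Prop := fun T =>
    U ((X T.1.1, Y T.1.2), fun k => x k (T.2 k)) i = ε * V (fun k => x k (T.2 k)) i ∧
    U ((X T.1.1, Y T.1.2), fun k => x k (T.2 k)) j = δ * V (fun k => x k (T.2 k)) j with hC
  have hlin : ∀ (p : ℕ × ℕ) (t : Fin 6 → ℕ), C (p, t) →
      X p.1 * z t (i3 i) - z t (i0 i) * Y p.2 = ε * V (z t) i / cU F i ∧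
      X p.1 * z t (i3 j) - z t (i0 j) * Y p.2 = δ * V (z t) j / cU F j := by
    intro p t hp
    obtain ⟨h1, h2⟩ := hp
    rw [U_eq] at h1 h2
    refine ⟨?_, ?_⟩
    · rw [eq_div_iff (cU_ne h30 i)]
      linear_combination h1
    · rw [eq_div_iff (cU_ne h30 j)]
      linear_combination h2
  set P2 : (Fin 6 → ℕ) → Prop := fun t =>
    z t (i0 i) * z t (i3 j) - z t (i0 j) * z t (i3 i) = 0 ∧
    (z t (i3 i) ≠ 0 ∨ z t (i0 i) ≠ 0) with hP2
  set P3 : (Fin 6 → ℕ) → Prop := fun t => z t (i0 i) = 0 ∧ z t (i3 i) = 0 with hP3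
  -- fibers over `z`
  have hfib : ∀ t ∈ Z, (((Box m).filter C).filter (fun T => T.2 = t)).card ≤
      h * h + (if P2 t then h * m else 0) + (if P3 t then m * m else 0) := by
    intro t _
    have h1 : (((Box m).filter C).filter (fun T => T.2 = t)).card ≤
        (((range m) ×ˢ (range m)).filter (fun p => C (p, t))).card := by
      refine card_le_card_of_injOn Prod.fst ?_ ?_
      · intro T hT
        have h2 := mem_filter.1 (mem_coe.1 hT)
        have h3 := mem_filter.1 h2.1
        refine mem_coe.2 (mem_filter.2 ⟨(mem_product.1 h3.1).1, ?_⟩)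
        rw [← h2.2]
        exact h3.2
      · intro T hT T' hT' he
        exact Prod.ext he ((mem_filter.1 (mem_coe.1 hT)).2.trans
          (mem_filter.1 (mem_coe.1 hT')).2.symm)
    refine h1.trans ?_
    by_cases hp : z t (i0 i) * z t (i3 j) - z t (i0 j) * z t (i3 i) = 0
    · by_cases hn : z t (i3 i) ≠ 0 ∨ z t (i0 i) ≠ 0
      · have h2 : P2 t := ⟨hp, hn⟩
        rw [if_pos h2]
        have h3 := cnt_line m h X Y hX hY (z t (i3 i)) (z t (i0 i)) _ hn (fun p => C (p, t))
          (fun p hp => (hlin p t hp).1)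
        omega
      · have h2 : P3 t := by
          rw [not_or, not_not, not_not] at hn
          exact ⟨hn.2, hn.1⟩
        rw [if_pos h2]
        have h3 : (((range m) ×ˢ (range m)).filter (fun p => C (p, t))).card ≤ m * m := by
          refine (card_filter_le _ _).trans ?_
          rw [card_product, card_range]
        omega
    · have h3 := cnt_pt m h X Y hX hY (z t (i3 i)) (z t (i0 i)) _ (z t (i3 j)) (z t (i0 j)) _ hp
        (fun p => C (p, t)) (fun p hp => hlin p t hp)
      omega
  have hsum : ((Box m).filter C).card ≤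
      ∑ t ∈ Z, (h * h + (if P2 t then h * m else 0) + (if P3 t then m * m else 0)) := by
    have hm2 : ∀ T ∈ (Box m).filter C, T.2 ∈ Z := fun T hT => by
      have h1 := (mem_filter.1 hT).1
      unfold Box at h1
      exact (mem_product.1 h1).2
    rw [card_eq_sum_card_fiberwise (s := (Box m).filter C) (f := Prod.snd) (t := Z)
      (fun T hT => mem_coe.2 (hm2 T (mem_coe.1 hT)))]
    exact sum_le_sum hfib
  have hsum2 : ∑ t ∈ Z, (h * h + (if P2 t then h * m else 0) + (if P3 t then m * m else 0)) =
      Z.card * (h * h) + (Z.filter P2).card * (h * m) + (Z.filter P3).card * (m * m) := by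
    rw [sum_add_distrib, sum_add_distrib, sum_const, ← sum_filter, ← sum_filter, sum_const,
      sum_const, smul_eq_mul, smul_eq_mul, smul_eq_mul]
  have c1 : Z.card = m ^ 6 := by
    rw [hZ, Fintype.card_piFinset_const, card_range]
  have c3 : (Z.filter P3).card ≤ m ^ 4 * h ^ 2 := by
    refine le_trans (card_le_card ?_) (cnt_two m h i
      ((range m).filter (fun v => x (i0 i) v = 0)) ((range m).filter (fun v => x (i3 i) v = 0))
      (hx _ _ _) (hx _ _ _))
    intro t ht
    rw [mem_filter] at ht ⊢
    have h2 := Fintype.mem_piFinset.1 ht.1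
    exact ⟨ht.1, mem_filter.2 ⟨h2 _, ht.2.1⟩, mem_filter.2 ⟨h2 _, ht.2.2⟩⟩
  have c2 : (Z.filter P2).card ≤ h * m ^ 5 + h * m ^ 5 := by
    have h1 : Z.filter P2 ⊆
        Z.filter (fun t => z t (i0 i) * z t (i3 j) - z t (i0 j) * z t (i3 i) = 0 ∧
          z t (i3 i) ≠ 0) ∪
        Z.filter (fun t => z t (i0 i) * z t (i3 j) - z t (i0 j) * z t (i3 i) = 0 ∧
          z t (i0 i) ≠ 0) := by
      intro t ht
      rw [mem_filter] at ht
      rw [mem_union, mem_filter, mem_filter]
      rcases ht.2.2 with h2 | h2
      · exact Or.inl ⟨ht.1, ht.2.1, h2⟩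
      · exact Or.inr ⟨ht.1, ht.2.1, h2⟩
    refine (card_le_card h1).trans ((card_union_le _ _).trans (Nat.add_le_add ?_ ?_))
    · refine cnt_one m h (i0 j) _ fun t => ?_
      refine le_trans (card_le_card ?_) (hx (i0 j) (z t (i0 i) * z t (i3 j) / z t (i3 i))
        inferInstance)
      intro v hv
      rw [mem_filter] at hv ⊢
      refine ⟨hv.1, ?_⟩
      have h2 := hv.2
      simp only [hz, Function.update_of_ne (ne1 i j hij), Function.update_of_ne (ne2 i j),
        Function.update_of_ne (ne2 j j), Function.update_self] at h2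
      simp only [hz]
      rw [eq_div_iff h2.2]
      linear_combination -h2.1
    · refine cnt_one m h (i3 j) _ fun t => ?_
      refine le_trans (card_le_card ?_) (hx (i3 j) (z t (i0 j) * z t (i3 i) / z t (i0 i))
        inferInstance)
      intro v hv
      rw [mem_filter] at hv ⊢
      refine ⟨hv.1, ?_⟩
      have h2 := hv.2
      simp only [hz, Function.update_of_ne (ne3 i j hij), Function.update_of_ne (ne2 j i).symm,
        Function.update_of_ne (ne2 j j).symm, Function.update_self] at h2
      simp only [hz]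
      rw [eq_div_iff h2.2]
      linear_combination h2.1
  rw [hsum2, c1] at hsum
  have d2 : (Z.filter P2).card * (h * m) ≤ (h * m ^ 5 + h * m ^ 5) * (h * m) :=
    Nat.mul_le_mul_right _ c2
  have d3 : (Z.filter P3).card * (m * m) ≤ (m ^ 4 * h ^ 2) * (m * m) := Nat.mul_le_mul_right _ c3
  calc _ ≤ m ^ 6 * (h * h) + (h * m ^ 5 + h * m ^ 5) * (h * m) + (m ^ 4 * h ^ 2) * (m * m) :=
        hsum.trans (Nat.add_le_add (Nat.add_le_add_left d2 _) d3)
    _ = 4 * m ^ 6 * h ^ 2 := by ring

end Pool.Helper67.R6
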